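import Pool.Agent.Q322.LS.Gen

/-!
# Homological stratification does not imply that the spectrum is weakly noetherian

For `T = D(R)` the Nerves of Steel conjecture holds, and `D(R)` is h-stratified if and only if `R` lies in the
localizing subcategory generated by the residue fields (both facts are listed in the problem file). The ring
`Axes k` (sequences of power series with the same constant coefficient, almost all constant) satisfies this
criterion, and its spectrum is weakly noetherian at every point but one: the maximal ideal of the sequences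
with constant coefficient `0` is the only point which is not weakly visible.
-/

set_option autoImplicit false

open CategoryTheory Pool.Agent.Q322.LS

namespace Pool.Agent.Results.MP_e18349_al.AxesThroughAPoint

attribute [local instance] HasDerivedCategory.standard

/-- the objects of `D(R)` isomorphic to the residue field `κ(p)`, in degree zero, of a prime `p` -/
def ResidueFields (R : Type) [CommRing R] : ObjectProperty (D R) := fun X =>
  ∃ p : PrimeSpectrum R, Nonempty (X ≅ deg0 (ModuleCat.of R p.asIdeal.ResidueField))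

/-- The criterion for `D(R)` to be h-stratified: `R ∈ Loc⟨κ(p) : p ∈ Spec R⟩`. -/
def HCriterion (R : Type) [CommRing R] : Prop :=
  InLoc (ResidueFields R) (deg0 (ModuleCat.of R R))

/-- a union of closed subsets with quasi-compact complements -/
def IsThomason {X : Type} [TopologicalSpace X] (Y : Set X) : Prop :=
  ∃ 𝒵 : Set (Set X), (∀ Z ∈ 𝒵, IsClosed Z ∧ IsCompact Zᶜ) ∧ Y = ⋃₀ 𝒵

/-- `{x}` is the difference of two Thomason subsets -/
def IsWeaklyVisible {X : Type} [TopologicalSpace X] (x : X) : Prop :=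
  ∃ Y₁ Y₂ : Set X, IsThomason Y₁ ∧ IsThomason Y₂ ∧ ({x} : Set X) = Y₁ ∩ Y₂ᶜ

/-- every point is weakly visible -/
def IsWeaklyNoetherian (X : Type) [TopologicalSpace X] : Prop := ∀ x : X, IsWeaklyVisible x

theorem star (k : Type) [Field k] : HCriterion (Axes k) := by
  intro P hP hS
  have hG := good_of_localizing P hP
  refine hG.axes (fun i => ?_) ?_
  · exact hS _ ⟨⟨pp i, inferInstance⟩, ⟨Iso.refl _⟩⟩
  · exact hS _ ⟨⟨mm, inferInstance⟩, ⟨Iso.refl _⟩⟩

/-- the maximal ideal is not a weakly visible point -/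
theorem notVisible (k : Type) [Field k] :
    ¬ IsWeaklyVisible (⟨mm, inferInstance⟩ : PrimeSpectrum (Axes k)) := by
  rintro ⟨Y₁, Y₂, ⟨Z₁, h1, rfl⟩, ⟨Z₂, h2, rfl⟩, h12⟩
  have hm : (⟨mm, inferInstance⟩ : PrimeSpectrum (Axes k)) ∈ ⋃₀ Z₁ ∩ (⋃₀ Z₂)ᶜ := by
    rw [← h12]; rfl
  obtain ⟨⟨Z, hZ, hmZ⟩, hm2⟩ := hm
  -- some minimal prime is in `Z`
  have hZ' := h1 Z hZ
  obtain ⟨t, ht⟩ := PrimeSpectrum.isCompact_isOpen_iff.1 ⟨hZ'.2, hZ'.1.isOpen_compl⟩
  have htZ : PrimeSpectrum.zeroLocus (t : Set (Axes k)) = Z := compl_injective ht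
  rw [← htZ] at hmZ
  have hfin : ∀ f ∈ t, {i : ℕ | cr i f ≠ 0}.Finite := by
    intro f hf
    obtain ⟨a, ha, hfi⟩ := f.2
    have h0 : ep f = 0 := mem_mm.1 (hmZ hf)
    have ha0 : a = 0 := (ha 0).symm.trans h0
    refine hfi.subset fun i hi h => hi ?_
    rw [cr_apply, h, ha0, map_zero]
  have hfin2 : (⋃ f ∈ t, {i : ℕ | cr i f ≠ 0}).Finite := t.finite_toSet.biUnion hfin
  obtain ⟨j, hj⟩ := hfin2.exists_notMem
  have hj' : ∀ f ∈ t, cr j f = 0 := by
    intro f hf
    by_contra hne
    exact hj (Set.mem_biUnion hf hne)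
  have hpZ : (⟨pp j, inferInstance⟩ : PrimeSpectrum (Axes k)) ∈ Z := by
    rw [← htZ]
    intro f hf
    exact mem_pp.2 (hj' f hf)
  -- it is not in the second Thomason set
  have hp2 : (⟨pp j, inferInstance⟩ : PrimeSpectrum (Axes k)) ∉ ⋃₀ Z₂ := by
    rintro ⟨W, hW, hpW⟩
    apply hm2
    refine ⟨W, hW, ?_⟩
    obtain ⟨s, hs⟩ := (PrimeSpectrum.isClosed_iff_zeroLocus W).1 (h2 W hW).1
    rw [hs] at hpW ⊢
    intro f hf
    have : f ∈ pp (k := k) j := hpW hf
    rw [mem_pp] at this
    exact mem_mm.2 (by rw [← cc_cr j, this, map_zero])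
  have hmem : (⟨pp j, inferInstance⟩ : PrimeSpectrum (Axes k)) ∈
      ({⟨mm, inferInstance⟩} : Set (PrimeSpectrum (Axes k))) := by
    rw [h12]
    exact ⟨⟨Z, hZ, hpZ⟩, hp2⟩
  have heq : pp (k := k) j = mm := congrArg PrimeSpectrum.asIdeal hmem
  have hx : xx (k := k) j ∈ mm := Ii_le j (xx_mem j)
  rw [← heq] at hx
  exact xx_notMem j hx

/-- a prime ideal which contains all the coordinates contains the maximal ideal -/
theorem mm_le {k : Type} [Field k] {Q : Ideal (Axes k)} (h : ∀ i, xx i ∈ Q) : mm ≤ Q := by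
  intro f hf
  have hfin : {i : ℕ | cr i f ≠ 0}.Finite := by
    obtain ⟨a, ha, hfi⟩ := f.2
    have h0 : ep f = 0 := mem_mm.1 hf
    have ha0 : a = 0 := (ha 0).symm.trans h0
    refine hfi.subset fun i hi h => hi ?_
    rw [cr_apply, h, ha0, map_zero]
  have hc : ∀ i, PowerSeries.constantCoeff (cr i f) = 0 := fun i => by
    rw [cc_cr, mem_mm.1 hf]
  have hsum : f = ∑ i ∈ hfin.toFinset, lift i (cr i f) := by
    refine axes_ext fun j => ?_
    rw [map_sum]
    by_cases hj : j ∈ hfin.toFinset
    · rw [Finset.sum_eq_single_of_mem j hj, cr_lift_self]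
      intro i _ hij
      rw [cr_lift_ne (Ne.symm hij), hc i, map_zero]
    · have hj0 : cr j f = 0 := by
        by_contra hne
        exact hj (hfin.mem_toFinset.2 hne)
      rw [hj0, Finset.sum_eq_zero]
      intro i hi
      have hij : j ≠ i := by
        rintro rfl
        exact hj hi
      rw [cr_lift_ne hij, hc i, map_zero]
  rw [hsum]
  refine Ideal.sum_mem _ fun i _ => ?_
  obtain ⟨g, hg⟩ := PowerSeries.X_dvd_iff.2 (hc i)
  have : lift i (cr i f) = xx i * lift i g := by
    refine axes_ext fun j => ?_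
    by_cases hj : j = i
    · rw [hj, map_mul, cr_lift_self, cr_lift_self, cr_xx, hg]
    · rw [map_mul, cr_lift_ne hj, hc i, map_zero, xx_mem i j hj, zero_mul]
  rw [this]
  exact Q.mul_mem_right _ (h i)

/-- a prime ideal which does not contain the `i`-th coordinate is the ideal of the `i`-th axis -/
theorem eq_pp {k : Type} [Field k] {Q : Ideal (Axes k)} [hQ : Q.IsPrime] {i : ℕ}
    (h : xx i ∉ Q) : Q = pp i := by
  apply le_antisymm
  · intro b hb
    by_contra hne
    obtain ⟨n, c, -, hbc⟩ := exists_mul_eq hne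
    have : xx i ^ n ∈ Q := by
      rw [← hbc]
      exact Q.mul_mem_right _ hb
    exact h (hQ.mem_of_pow_mem n this)
  · intro f hf
    have h0 : f * xx i = 0 :=
      Ii_eq_zero ((Ii i).mul_mem_left f (xx_mem i)) ((pp i).mul_mem_right _ hf)
    have : f * xx i ∈ Q := by rw [h0]; exact Q.zero_mem
    exact (hQ.mem_or_mem this).resolve_right h

/-- the points are the maximal ideal and the ideals of the axes -/
theorem eq_mm_or {k : Type} [Field k] (Q : Ideal (Axes k)) [hQ : Q.IsPrime] :
    Q = mm ∨ ∃ i, xx i ∉ Q := by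
  by_cases h : ∀ i, xx i ∈ Q
  · left
    have hm : (mm (k := k)).IsMaximal := inferInstance
    exact (hm.eq_of_le hQ.ne_top (mm_le h)).symm
  · push Not at h
    exact Or.inr h

/-- every point other than the maximal ideal is weakly visible -/
theorem visible {k : Type} [Field k] (x : PrimeSpectrum (Axes k))
    (hx : x ≠ ⟨mm, inferInstance⟩) : IsWeaklyVisible x := by
  haveI := x.isPrime
  rcases eq_mm_or x.asIdeal with h | ⟨i, hi⟩
  · exact absurd (PrimeSpectrum.ext h) hx
  · refine ⟨Set.univ, PrimeSpectrum.zeroLocus {xx i}, ⟨{Set.univ}, ?_, by simp⟩,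
      ⟨{PrimeSpectrum.zeroLocus {xx i}}, ?_, by simp⟩, ?_⟩
    · rintro Z rfl
      exact ⟨isClosed_univ, by simp⟩
    · rintro Z rfl
      refine ⟨PrimeSpectrum.isClosed_zeroLocus _, ?_⟩
      rw [← PrimeSpectrum.basicOpen_eq_zeroLocus_compl]
      exact PrimeSpectrum.isCompact_basicOpen _
    · ext y
      simp only [Set.mem_singleton_iff, Set.univ_inter, Set.mem_compl_iff,
        PrimeSpectrum.mem_zeroLocus, Set.singleton_subset_iff, SetLike.mem_coe]
      constructor
      · rintro rfl
        exact hi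
      · intro hy
        haveI := y.isPrime
        exact PrimeSpectrum.ext ((eq_pp hy).trans (eq_pp hi).symm)

/-- **Negative answer.** For every field `k` the derived category of `Axes k` satisfies the criterion
for homological stratification, its spectrum is not weakly noetherian, and exactly one point of the
spectrum is not weakly visible. -/
theorem result (k : Type) [Field k] :
    HCriterion (Axes k) ∧
      ¬ IsWeaklyNoetherian (PrimeSpectrum (Axes k)) ∧
      ∃! x : PrimeSpectrum (Axes k), ¬ IsWeaklyVisible x :=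
  ⟨star k, fun h => notVisible k (h _), ⟨mm, inferInstance⟩, notVisible k, fun y hy => by
    by_contra hne
    exact hy (visible y hne)⟩

end Pool.Agent.Results.MP_e18349_al.AxesThroughAPoint
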